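import Pool.Agent.W458.FJ.Stm

/-!
# The part C2
-/

set_option autoImplicit false
set_option maxHeartbeats 400000

namespace Pool.Agent.W975.FJ.C2

open Pool.Agent.W458.FJ

theorem pl {p k s t : ℕ} (hp : p.Prime) (hs : s ≠ 0) (ht : t ≠ 0) (h : p ^ k ∣ Nat.lcm s t) :
    p ^ k ∣ s ∨ p ^ k ∣ t := by
  rw [hp.pow_dvd_iff_le_factorization (Nat.lcm_ne_zero hs ht), Nat.factorization_lcm hs ht,
    Finsupp.sup_apply, le_sup_iff] at h
  rcases h with h | h
  · exact Or.inl ((hp.pow_dvd_iff_le_factorization hs).2 h)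
  · exact Or.inr ((hp.pow_dvd_iff_le_factorization ht).2 h)

theorem dist {n s t D : ℕ} (h1 : Nat.gcd n s ∣ D) (h2 : Nat.gcd n t ∣ D) :
    Nat.gcd n (Nat.lcm s t) ∣ D := by
  rcases Nat.eq_zero_or_pos s with hs | hs
  · subst hs
    rw [Nat.lcm_zero_left]
    exact h1
  rcases Nat.eq_zero_or_pos t with ht | ht
  · subst ht
    rw [Nat.lcm_zero_right]
    exact h2
  rw [Nat.dvd_iff_prime_pow_dvd_dvd]
  intro p k hp h
  have h3 := h.trans (Nat.gcd_dvd_left _ _)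
  have h4 := h.trans (Nat.gcd_dvd_right _ _)
  rcases pl hp hs.ne' ht.ne' h4 with h5 | h5
  · exact (Nat.dvd_gcd h3 h5).trans h1
  · exact (Nat.dvd_gcd h3 h5).trans h2

theorem distF {ι : Type} [DecidableEq ι] (a : ι → ℕ) {n D : ℕ} (T : Finset ι)
    (h : ∀ i ∈ T, Nat.gcd n (a i) ∣ D) : Nat.gcd n (T.lcm a) ∣ D := by
  induction T using Finset.induction_on with
  | empty =>
    rw [Finset.lcm_empty, Nat.gcd_one_right]
    exact one_dvd _
  | insert i T hi ih =>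
    rw [Finset.lcm_insert]
    exact dist (h i (Finset.mem_insert_self _ _))
      (ih fun j hj => h j (Finset.mem_insert_of_mem hj))

theorem dbl {m a : ℕ} (hm : 0 < m) (ha : 0 < a) (h : ¬ a ∣ m) : 2 * m ≤ Nat.lcm m a := by
  obtain ⟨c, hc⟩ := Nat.dvd_lcm_left m a
  have h0 : Nat.lcm m a ≠ 0 := Nat.lcm_ne_zero hm.ne' ha.ne'
  have hc0 : c ≠ 0 := by
    rintro rfl
    rw [mul_zero] at hc
    exact h0 hc
  have hc1 : c ≠ 1 := by
    rintro rfl
    rw [mul_one] at hc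
    apply h
    have h2 := Nat.dvd_lcm_right m a
    rwa [hc] at h2
  rw [hc]
  have h2 : 2 ≤ c := by omega
  nlinarith

theorem main : Pool.Agent.W458.FJ.SUM → Pool.Agent.W458.FJ.C2 := by
  intro hSUM ι _ _ a d₁ d₂ ha hd₁ hd₂ hReg x y z hxy hxz hyz hx1 hy1 hz1 hx2 hy2 hz2
  -- the key fact
  have K : ∀ i j, i ≠ j → a i ∣ d₁ → Nat.gcd (a i) (a j) ∣ d₂ := by
    intro i j hij hi
    by_contra hcon
    have ht0 : 0 < Nat.gcd (a i) (a j) := Nat.gcd_pos_of_pos_left _ (ha i)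
    have ht1 : Nat.gcd (a i) (a j) ≠ 1 := by
      intro h
      rw [h] at hcon
      exact hcon (one_dvd _)
    have h1 := hReg (Nat.gcd (a i) (a j)) (by omega)
    have h2 : dl d₁ d₂ (Nat.gcd (a i) (a j)) ≤ 1 := by
      unfold dl
      rw [if_neg hcon]
      split_ifs <;> omega
    have h3 : 2 ≤ cnt Finset.univ a (Nat.gcd (a i) (a j)) := by
      unfold cnt
      rw [← Finset.card_pair hij]
      apply Finset.card_le_card
      intro l hl
      rw [Finset.mem_insert, Finset.mem_singleton] at hl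
      rw [Finset.mem_filter]
      rcases hl with rfl | rfl
      · exact ⟨Finset.mem_univ _, Nat.gcd_dvd_left _ _⟩
      · exact ⟨Finset.mem_univ _, Nat.gcd_dvd_right _ _⟩
    omega
  have F1 : ∀ i, ¬ a i ∣ d₂ → a i ∣ d₁ := by
    intro i hi
    by_contra hcon
    have h1 : a i ≠ 1 := by
      intro h
      rw [h] at hi
      exact hi (one_dvd _)
    have h2 := hReg (a i) (by have := ha i; omega)
    have h3 : dl d₁ d₂ (a i) = 0 := by
      unfold dl
      rw [if_neg hcon, if_neg hi]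
    have h4 : 0 < cnt Finset.univ a (a i) := by
      unfold cnt
      rw [Finset.card_pos]
      exact ⟨i, Finset.mem_filter.2 ⟨Finset.mem_univ _, dvd_rfl⟩⟩
    omega
  set V : Finset ι := {x, y, z} with hV
  set T : Finset ι := (Finset.univ \ V).filter (fun i => a i ∣ d₁ ∧ ¬ a i ∣ d₂) with hT
  set g : ℕ := Nat.gcd d₁ d₂ with hg
  have hg0 : 0 < g := Nat.gcd_pos_of_pos_left _ hd₁
  set Q : ℕ := Nat.lcm g (T.lcm a) with hQ
  have hTd : T.lcm a ∣ d₁ := by
    apply Finset.lcm_dvd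
    intro i hi
    exact (Finset.mem_filter.1 hi).2.1
  have hQd : Q ∣ d₁ := Nat.lcm_dvd (Nat.gcd_dvd_left _ _) hTd
  have hQ0 : 0 < Q := Nat.pos_of_dvd_of_pos hQd hd₁
  -- the sum over the other indices
  have hsum := hSUM ι (Finset.univ \ V) a (fun i _ => ha i) 1 1 Q d₂ one_pos one_pos hQ0 hd₂ (by
    intro h hh
    have e1 : dl 1 1 h = 0 := by
      unfold dl
      rw [if_neg (by rw [Nat.dvd_one]; omega)]
    rw [e1, add_zero]
    have h1 : cnt (Finset.univ \ V) a h ≤ cnt Finset.univ a h := by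
      unfold cnt
      apply Finset.card_le_card
      apply Finset.filter_subset_filter
      exact Finset.sdiff_subset
    have h2 := hReg h hh
    by_cases c2 : h ∣ d₂
    · by_cases c1 : h ∣ d₁
      · have c3 : h ∣ Q := (Nat.dvd_gcd c1 c2).trans (Nat.dvd_lcm_left _ _)
        have e2 : dl d₁ d₂ h = 2 := by
          unfold dl
          rw [if_pos c1, if_pos c2]
        have e3 : dl Q d₂ h = 2 := by
          unfold dl
          rw [if_pos c3, if_pos c2]
        omega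
      · have e2 : dl d₁ d₂ h = 1 := by
          unfold dl
          rw [if_neg c1, if_pos c2]
        have e3 : 1 ≤ dl Q d₂ h := by
          unfold dl
          rw [if_pos c2]
          omega
        omega
    · by_cases c4 : ∃ i ∈ Finset.univ \ V, h ∣ a i
      · obtain ⟨i, hi, hhi⟩ := c4
        have c5 : ¬ a i ∣ d₂ := fun h3 => c2 (hhi.trans h3)
        have c6 := F1 i c5
        have c7 : i ∈ T := Finset.mem_filter.2 ⟨hi, c6, c5⟩
        have c8 : h ∣ Q := (hhi.trans (Finset.dvd_lcm c7)).trans (Nat.dvd_lcm_right _ _)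
        have e2 : dl d₁ d₂ h ≤ 1 := by
          unfold dl
          rw [if_neg c2]
          split_ifs <;> omega
        have e3 : 1 ≤ dl Q d₂ h := by
          unfold dl
          rw [if_pos c8]
          omega
        omega
      · push Not at c4
        have e4 : cnt (Finset.univ \ V) a h = 0 := by
          unfold cnt
          rw [Finset.card_eq_zero, Finset.filter_eq_empty_iff]
          intro i hi
          exact c4 i hi
        omega)
  have hsplit : ∑ i, (a i - 1) = ∑ i ∈ Finset.univ \ V, (a i - 1) +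
      ((a x - 1) + ((a y - 1) + (a z - 1))) := by
    rw [← Finset.sum_sdiff (Finset.subset_univ V)]
    congr 1
    rw [hV, Finset.sum_insert, Finset.sum_insert, Finset.sum_singleton]
    · rw [Finset.mem_singleton]; exact hyz
    · rw [Finset.mem_insert, Finset.mem_singleton]
      push Not
      exact ⟨hxy, hxz⟩
  -- arithmetic
  have hTn : ∀ w, w ∈ V → a w ∣ d₁ → ∀ i ∈ T, Nat.gcd (a w) (a i) ∣ d₂ := by
    intro w hw hwd i hi
    apply K w i _ hwd
    rintro rfl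
    exact (Finset.mem_sdiff.1 (Finset.mem_filter.1 hi).1).2 hw
  have hxV : x ∈ V := by rw [hV]; simp
  have hyV : y ∈ V := by rw [hV]; simp
  have hgg : ∀ n, Nat.gcd n g ∣ d₂ := fun n =>
    (Nat.gcd_dvd_right _ _).trans (Nat.gcd_dvd_right _ _)
  have hax := ha x
  have hay := ha y
  have haz := ha z
  have gxQ : Nat.gcd (a x) Q ∣ d₂ := dist (hgg _) (distF a T (hTn x hxV hx1))
  have gyQ : Nat.gcd (a y) Q ∣ d₂ := dist (hgg _) (distF a T (hTn y hyV hy1))
  have gxy : Nat.gcd (a x) (a y) ∣ d₂ := K x y hxy hx1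
  have gyx : Nat.gcd (a y) (a x) ∣ d₂ := K y x hxy.symm hy1
  have gxz : Nat.gcd (a x) (a z) ∣ d₂ := K x z hxz hx1
  have gyz : Nat.gcd (a y) (a z) ∣ d₂ := K y z hyz hy1
  have gzx : Nat.gcd (a z) (a x) ∣ d₂ := K z x hxz.symm hz1
  have gzy : Nat.gcd (a z) (a y) ∣ d₂ := K z y hyz.symm hz1
  have fin : ∀ {n N : ℕ}, ¬ n ∣ d₂ → Nat.gcd n N ∣ d₂ → ¬ n ∣ N := by
    intro n N h1 h2 h3
    rw [Nat.gcd_eq_left h3] at h2
    exact h1 h2
  have q1 : 2 * Q ≤ Nat.lcm Q (a x) := dbl hQ0 hax (fin hx2 gxQ)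
  have hl0 : 0 < Nat.lcm Q (a x) := Nat.pos_of_ne_zero (Nat.lcm_ne_zero hQ0.ne' hax.ne')
  have q2 : 2 * Nat.lcm Q (a x) ≤ Nat.lcm (Nat.lcm Q (a x)) (a y) :=
    dbl hl0 hay (fin hy2 (dist gyQ gyx))
  have q3 : Nat.lcm (Nat.lcm Q (a x)) (a y) ≤ d₁ :=
    Nat.le_of_dvd hd₁ (Nat.lcm_dvd (Nat.lcm_dvd hQd hx1) hy1)
  set G : ℕ := Nat.gcd (a x) (a y) with hG
  have hG0 : 0 < G := Nat.gcd_pos_of_pos_left _ hax
  have hGd : G ∣ d₁ := (Nat.gcd_dvd_left _ _).trans hx1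
  have hGn : ∀ n, Nat.gcd n G ∣ d₂ := fun n => (Nat.gcd_dvd_right _ _).trans gxy
  set M : ℕ := Nat.lcm G (a z) with hM
  have hM0 : 0 < M := Nat.pos_of_ne_zero (Nat.lcm_ne_zero hG0.ne' haz.ne')
  have hMd : M ∣ d₁ := Nat.lcm_dvd hGd hz1
  have m1 : 2 * M ≤ Nat.lcm M (a x) := dbl hM0 hax (fin hx2 (dist (hGn _) gxz))
  have hl1 : 0 < Nat.lcm M (a x) := Nat.pos_of_ne_zero (Nat.lcm_ne_zero hM0.ne' hax.ne')
  have m2 : 2 * Nat.lcm M (a x) ≤ Nat.lcm (Nat.lcm M (a x)) (a y) :=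
    dbl hl1 hay (fin hy2 (dist (dist (hGn _) gyz) gyx))
  have m3 : Nat.lcm (Nat.lcm M (a x)) (a y) ≤ d₁ :=
    Nat.le_of_dvd hd₁ (Nat.lcm_dvd (Nat.lcm_dvd hMd hx1) hy1)
  set L : ℕ := Nat.lcm (a x) (a y) with hL
  have hL0 : 0 < L := Nat.pos_of_ne_zero (Nat.lcm_ne_zero hax.ne' hay.ne')
  have l1 : 2 * L ≤ Nat.lcm L (a z) := dbl hL0 haz (fin hz2 (dist gzx gzy))
  have l2 : Nat.lcm L (a z) ≤ d₁ := Nat.le_of_dvd hd₁ (Nat.lcm_dvd (Nat.lcm_dvd hx1 hy1) hz1)
  rw [hsplit]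
  omega

end Pool.Agent.W975.FJ.C2
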